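import Pool.Agent.U501.WG.Free

/-! If `s` and `u` generate the free group on `s, t`, then `u = s ^ i * t ^ ±1 * s ^ j`. -/

namespace Pool.Agent.U501.WG

open FreeGroup List

theorem mk_cons (s : Fin 2) (e : Bool) (L : List (Fin 2 × Bool)) :
    (mk ((s, e) :: L) : F2) = (of s) ^ (if e then (1 : ℤ) else -1) * mk L := by
  have h : (mk ((s, e) :: L) : F2) = mk [(s, e)] * mk L := by
    rw [mul_mk]; rfl
  rw [h]
  congr 1
  cases e
  · simp [of, inv_mk, invRev]
  · simp [of]

theorem mk_concat (s : Fin 2) (e : Bool) (L : List (Fin 2 × Bool)) :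
    (mk (L ++ [(s, e)]) : F2) = mk L * (of s) ^ (if e then (1 : ℤ) else -1) := by
  have h : (mk (L ++ [(s, e)]) : F2) = mk L * mk [(s, e)] := by
    rw [mul_mk]
  rw [h]
  congr 1
  cases e
  · simp [of, inv_mk, invRev]
  · simp [of]

/-- words without the letter `t` -/
theorem mk_pow {s t : Fin 2} (hst : ∀ i : Fin 2, i = s ∨ i = t) (L : List (Fin 2 × Bool))
    (h : L.countP (fun p => decide (p.1 = t)) = 0) : ∃ k : ℤ, (mk L : F2) = of s ^ k := by
  induction L with
  | nil => exact ⟨0, by simp [one_eq_mk]⟩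
  | cons a L ih =>
    obtain ⟨i, e⟩ := a
    rw [List.countP_cons] at h
    have hi : i ≠ t := by
      intro hi
      simp [hi] at h
    have hi' : i = s := (hst i).resolve_right hi
    subst hi'
    obtain ⟨k, hk⟩ := ih (by omega)
    refine ⟨(if e then (1 : ℤ) else -1) + k, ?_⟩
    rw [mk_cons, hk, zpow_add]

/-- cutting off the powers of `s` at both ends -/
theorem dec_list {s t : Fin 2} (hst : ∀ i : Fin 2, i = s ∨ i = t) (n : ℕ) :
    ∀ L : List (Fin 2 × Bool), L.length = n → FreeGroup.IsReduced L →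
      1 ≤ L.countP (fun p => decide (p.1 = t)) →
      ∃ (i j : ℤ) (M : List (Fin 2 × Bool)), FreeGroup.IsReduced M ∧
        (∃ e, M.head? = some (t, e)) ∧ (∃ e, M.getLast? = some (t, e)) ∧
        (mk L : F2) = of s ^ i * mk M * of s ^ j := by
  induction n using Nat.strong_induction_on with
  | _ n ih =>
    intro L hL hred hc
    rcases L with _ | ⟨⟨a, e⟩, L'⟩
    · simp at hc
    · rcases hst a with rfl | rfl
      · -- the first letter is `s`
        by_cases hat : a = t
        · -- then everything is `t`, impossible situation treated by the same argument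
          subst hat
          rcases List.eq_nil_or_concat' L' with rfl | ⟨L'', ⟨b, e'⟩, rfl⟩
          · exact ⟨0, 0, [(a, e)], hred, ⟨e, rfl⟩, ⟨e, rfl⟩, by simp⟩
          · rcases hst b with hb | hb <;> subst hb
            · exact ⟨0, 0, (_, e) :: (L'' ++ [(_, e')]), hred, ⟨e, rfl⟩, ⟨e', by simp [List.getLast?_cons]⟩, by simp⟩
            · exact ⟨0, 0, (_, e) :: (L'' ++ [(_, e')]), hred, ⟨e, rfl⟩, ⟨e', by simp [List.getLast?_cons]⟩, by simp⟩
        · have hred' : FreeGroup.IsReduced L' := by
            have h0 : FreeGroup.IsReduced ([(a, e)] ++ L') := hred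
            exact (List.isChain_append.mp h0).2.1
          have hc' : 1 ≤ L'.countP (fun p => decide (p.1 = t)) := by
            rw [List.countP_cons] at hc
            simpa [hat] using hc
          obtain ⟨i, j, M, h1, h2, h3, h4⟩ := ih L'.length (by rw [← hL]; simp) L' rfl hred' hc'
          refine ⟨(if e then (1 : ℤ) else -1) + i, j, M, h1, h2, h3, ?_⟩
          rw [mk_cons, h4, zpow_add]
          simp [mul_assoc]
      · rcases List.eq_nil_or_concat' L' with rfl | ⟨L'', ⟨b, e'⟩, rfl⟩
        · exact ⟨0, 0, [(a, e)], hred, ⟨e, rfl⟩, ⟨e, rfl⟩, by simp⟩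
        · by_cases hba : b = a
          · subst hba
            exact ⟨0, 0, (_, e) :: (L'' ++ [(_, e')]), hred, ⟨e, rfl⟩, ⟨e', by simp [List.getLast?_cons]⟩, by simp⟩
          · have hbs : b = s := (hst b).resolve_right hba
            subst hbs
            have hred' : FreeGroup.IsReduced ((a, e) :: L'') := by
              have h0 : FreeGroup.IsReduced (((a, e) :: L'') ++ [(b, e')]) := hred
              exact (List.isChain_append.mp h0).1
            have hc' : 1 ≤ ((a, e) :: L'').countP (fun p => decide (p.1 = a)) := by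
              rw [List.countP_cons]; simp
            obtain ⟨i, j, M, h1, h2, h3, h4⟩ := ih ((a, e) :: L'').length
              (by rw [← hL]; simp) _ rfl hred' hc'
            refine ⟨i, j + (if e' then (1 : ℤ) else -1), M, h1, h2, h3, ?_⟩
            have : ((a, e) :: (L'' ++ [(b, e')])) = ((a, e) :: L'') ++ [(b, e')] := rfl
            rw [this, mk_concat, h4, zpow_add]
            simp [mul_assoc]

theorem cnt_of (t : Fin 2) : cnt t (of t : F2) = 1 := by
  simp [cnt]

theorem gen_form {s t : Fin 2} (hst : ∀ i : Fin 2, i = s ∨ i = t) (hne : s ≠ t) {u : F2}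
    (h : (of t : F2) ∈ Subgroup.closure ({of s, u} : Set F2)) :
    ∃ (i j : ℤ) (e : Bool), u = of s ^ i * of t ^ (if e then (1 : ℤ) else -1) * of s ^ j := by
  by_cases hc : 1 ≤ cnt t u
  · obtain ⟨i, j, M, h1, ⟨e, h2⟩, ⟨e', h3⟩, h4⟩ :=
      dec_list hst _ u.toWord rfl isReduced_toWord hc
    rw [mk_toWord] at h4
    set U : F2 := mk M with hU
    have hUM : U.toWord = M := by
      rw [hU, toWord_mk]
      exact FreeGroup.IsReduced.reduce_eq h1
    have hle : Subgroup.closure ({of s, u} : Set F2) ≤ Subgroup.closure ({of s, U} : Set F2) := by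
      rw [Subgroup.closure_le]
      have hs : (of s : F2) ∈ Subgroup.closure ({of s, U} : Set F2) :=
        Subgroup.subset_closure (by simp)
      have hUm : U ∈ Subgroup.closure ({of s, U} : Set F2) :=
        Subgroup.subset_closure (by simp)
      intro x hx
      rcases hx with rfl | hx
      · exact hs
      · rw [Set.mem_singleton_iff] at hx
        subst hx
        rw [h4]
        exact Subgroup.mul_mem _ (Subgroup.mul_mem _ (Subgroup.zpow_mem _ hs _) hUm)
          (Subgroup.zpow_mem _ hs _)
    have hlt : ¬ 2 ≤ cnt t U := by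
      intro h2'
      exact closure_Q hne ⟨e, by rw [hUM]; exact h2⟩ ⟨e', by rw [hUM]; exact h3⟩ h2' (hle h)
        (cnt_of t)
    have hM : M = [(t, e)] := by
      rcases M with _ | ⟨a, M'⟩
      · simp at h2
      · simp only [List.head?_cons, Option.some.injEq] at h2
        subst h2
        rcases List.eq_nil_or_concat' M' with rfl | ⟨M'', b, rfl⟩
        · rfl
        · exfalso
          apply hlt
          have hb : b = (t, e') := by
            have : ((t, e) :: (M'' ++ [b])).getLast? = some b := by simp [List.getLast?_cons]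
            rw [this] at h3
            exact Option.some.inj h3
          subst hb
          unfold cnt
          rw [hUM]
          simp [List.countP_cons, List.countP_append]
    refine ⟨i, j, e, ?_⟩
    rw [h4, hU, hM, mk_cons]
    simp [← one_eq_mk]
  · exfalso
    obtain ⟨k, hk⟩ := mk_pow hst u.toWord (by unfold cnt at hc; omega)
    rw [mk_toWord] at hk
    let χ : F2 →* Multiplicative ℤ :=
      FreeGroup.lift (fun i => if i = t then Multiplicative.ofAdd 1 else 1)
    have hχs : χ (of s) = 1 := by simp [χ, hne]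
    have hχt : χ (of t) = Multiplicative.ofAdd 1 := by simp [χ]
    have hle : Subgroup.closure ({of s, u} : Set F2) ≤ χ.ker := by
      rw [Subgroup.closure_le]
      intro x hx
      rcases hx with rfl | hx
      · exact hχs
      · rw [Set.mem_singleton_iff] at hx
        subst hx
        change χ x = 1
        rw [hk, _root_.map_zpow, hχs, one_zpow]
    have := hle h
    rw [MonoidHom.mem_ker, hχt] at this
    exact absurd this (by decide)

/-- the word map -/
def wd {G : Type*} [Group G] (w : F2) (x y : G) : G := FreeGroup.lift ![x, y] w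

theorem map_wd {G H : Type*} [Group G] [Group H] (f : G →* H) (w : F2) (x y : G) :
    f (wd w x y) = wd w (f x) (f y) := by
  unfold wd
  have : f.comp (FreeGroup.lift ![x, y]) = FreeGroup.lift ![f x, f y] := by
    apply FreeGroup.ext_hom
    intro i
    fin_cases i <;> simp
  rw [← this]
  rfl

theorem wd_self (w : F2) : wd w (of 0 : F2) (of 1 : F2) = w := by
  unfold wd
  have : FreeGroup.lift ![(of 0 : F2), of 1] = MonoidHom.id F2 := by
    apply FreeGroup.ext_hom
    intro i
    fin_cases i <;> simp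
  rw [this]
  rfl

theorem wd_mem_closure {G : Type*} [Group G] (w : F2) (x y : G) :
    wd w x y ∈ Subgroup.closure ({x, y} : Set G) := by
  unfold wd
  have : (FreeGroup.lift ![x, y]).range ≤ Subgroup.closure ({x, y} : Set G) := by
    rw [FreeGroup.range_lift_eq_closure]
    apply Subgroup.closure_mono
    rintro _ ⟨i, rfl⟩
    fin_cases i <;> simp
  exact this ⟨w, rfl⟩

/-- the word map in a commutative group -/
theorem wd_comm {C : Type*} [CommGroup C] (w : F2) (p q : C) : wd w p q = wd w p 1 * wd w 1 q := by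
  unfold wd
  have : FreeGroup.lift ![p, q] = FreeGroup.lift ![p, 1] * FreeGroup.lift ![1, q] := by
    apply FreeGroup.ext_hom
    intro i
    fin_cases i <;> simp
  rw [this]
  rfl

theorem wd_of_mul {G : Type*} [Group G] (x y : G) : wd (of 0 * of 1) x y = x * y := by
  simp [wd]

theorem wd_of_mul' {G : Type*} [Group G] (x y : G) : wd (of 1 * of 0) x y = y * x := by
  simp [wd]

theorem wd_wd {G : Type*} [Group G] (w p q : F2) (x y : G) :
    wd (wd w p q) x y = wd w (wd p x y) (wd q x y) := map_wd (FreeGroup.lift ![x, y]) w p q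

theorem wd_gen0 {G : Type*} [Group G] (x y : G) : wd (of 0) x y = x := by simp [wd]

theorem wd_gen1 {G : Type*} [Group G] (x y : G) : wd (of 1) x y = y := by simp [wd]

theorem wd_inv {G : Type*} [Group G] (w : F2) (x y : G) : wd w⁻¹ x y = (wd w x y)⁻¹ := by
  simp [wd]

theorem wd_mul {G : Type*} [Group G] (v w : F2) (x y : G) :
    wd (v * w) x y = wd v x y * wd w x y := by
  simp [wd]

theorem wd_zpow {G : Type*} [Group G] (w : F2) (k : ℤ) (x y : G) :
    wd (w ^ k) x y = wd w x y ^ k := by
  simp [wd]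

theorem cnt_mul_le (t : Fin 2) (g h : F2) : cnt t (g * h) ≤ cnt t g + cnt t h := by
  unfold cnt
  rw [← List.countP_append]
  exact (toWord_mul_sublist g h).countP_le

theorem cnt_of_zpow_ne {s t : Fin 2} (hst : s ≠ t) (k : ℤ) : cnt t ((of s : F2) ^ k) = 0 := by
  obtain ⟨n, rfl | rfl⟩ := Int.eq_nat_or_neg k
  · rw [zpow_natCast]
    unfold cnt
    rw [toWord_of_pow, List.countP_replicate]
    simp [hst]
  · rw [zpow_neg, zpow_natCast, cnt_inv]
    unfold cnt
    rw [toWord_of_pow, List.countP_replicate]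
    simp [hst]

theorem zpow_of_eq {s : Fin 2} {k : ℤ} (h : (of s : F2) ^ k = of s) : k = 1 := by
  have h' := congrArg (FreeGroup.lift (fun _ : Fin 2 => Multiplicative.ofAdd (1 : ℤ))) h
  rw [_root_.map_zpow, FreeGroup.lift_apply_of, ← ofAdd_zsmul] at h'
  have := Multiplicative.ofAdd.injective h'
  simpa using this

/-- A word `w` with `w(a, 1) = a`, `w(1, b) = b`, `w(a, w(a⁻¹, b)) = b` and
`w(w(a, b⁻¹), b) = a` in the free group is `ab` or `ba`. -/
theorem word_form {w : F2} (ha : wd w (of 0 : F2) 1 = of 0) (hb : wd w 1 (of 1 : F2) = of 1)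
    (h1 : wd w (of 0 : F2) (wd w (of 0)⁻¹ (of 1)) = of 1)
    (h2 : wd w (wd w (of 0 : F2) (of 1)⁻¹) (of 1) = of 0) : w = of 0 * of 1 ∨ w = of 1 * of 0 := by
  have hst : ∀ i : Fin 2, i = 0 ∨ i = 1 := by decide
  have hst' : ∀ i : Fin 2, i = 1 ∨ i = 0 := by decide
  -- first form
  have hc1 : (of 1 : F2) ∈ Subgroup.closure ({of 0, wd w (of 0)⁻¹ (of 1)} : Set F2) := by
    have := wd_mem_closure w (of 0 : F2) (wd w (of 0)⁻¹ (of 1))
    rwa [h1] at this
  have hc2 : (of 0 : F2) ∈ Subgroup.closure ({of 1, wd w (of 0) (of 1)⁻¹} : Set F2) := by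
    have := wd_mem_closure w (wd w (of 0 : F2) (of 1)⁻¹) (of 1)
    rw [h2] at this
    rwa [Set.pair_comm] at this
  obtain ⟨i, j, e, hu⟩ := gen_form hst (by decide) hc1
  obtain ⟨k, l, e', hv⟩ := gen_form hst' (by decide) hc2
  -- pull back by the automorphisms
  have hw1 : w = of 0 ^ (-i) * of 1 ^ (if e then (1 : ℤ) else -1) * of 0 ^ (-j) := by
    have h := congrArg (fun g => wd g (of 0 : F2)⁻¹ (of 1)) hu
    simp only [wd_wd, wd_inv, wd_gen0, wd_gen1, inv_inv, wd_self, wd_mul, wd_zpow, inv_zpow] at h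
    rw [h]
    simp [zpow_neg]
  have hw2 : w = of 1 ^ (-k) * of 0 ^ (if e' then (1 : ℤ) else -1) * of 1 ^ (-l) := by
    have h := congrArg (fun g => wd g (of 0 : F2) (of 1)⁻¹) hv
    simp only [wd_wd, wd_inv, wd_gen0, wd_gen1, inv_inv, wd_self, wd_mul, wd_zpow, inv_zpow] at h
    rw [h]
    simp [zpow_neg]
  have he : (if e then (1 : ℤ) else -1) = 1 := by
    have h := hb
    rw [hw1] at h
    simp only [wd_wd, wd_inv, wd_gen0, wd_gen1, wd_mul, wd_zpow, one_zpow, one_mul, mul_one] at h
    exact zpow_of_eq h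
  have he' : (if e' then (1 : ℤ) else -1) = 1 := by
    have h := ha
    rw [hw2] at h
    simp only [wd_wd, wd_inv, wd_gen0, wd_gen1, wd_mul, wd_zpow, one_zpow, one_mul, mul_one] at h
    exact zpow_of_eq h
  have hkl : -k + -l = 1 := by
    have h := hb
    rw [hw2] at h
    simp only [wd_wd, wd_inv, wd_gen0, wd_gen1, wd_mul, wd_zpow, one_zpow, mul_one,
      ← zpow_add] at h
    exact zpow_of_eq h
  rw [he, zpow_one] at hw1
  rw [he', zpow_one] at hw2
  have hcnt : cnt 1 w ≤ 1 := by
    rw [hw1]
    have h1 := cnt_mul_le 1 (of 0 ^ (-i) * of 1 : F2) (of 0 ^ (-j))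
    have h2 := cnt_mul_le 1 (of 0 ^ (-i) : F2) (of 1)
    rw [cnt_of_zpow_ne (by decide)] at h1 h2
    rw [cnt_of] at h2
    omega
  by_cases hk : k = 0
  · left
    have hl : -l = 1 := by omega
    rw [hw2, hl, hk]
    simp
  · by_cases hl : l = 0
    · right
      have hk' : -k = 1 := by omega
      rw [hw2, hk', hl]
      simp
    · exfalso
      have q1 : Q 0 1 1 ((of 1 : F2) ^ (-k)) := by
        have hk' : -k ≠ 0 := by omega
        obtain ⟨a, b, -⟩ := Q_of_zpow (s := 1) (t := 0) (by decide) hk'
        exact ⟨a, b, by rw [cnt_of_zpow_ne (by decide)]; exact Or.inl rfl⟩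
      have q2 : Q 0 1 1 ((of 1 : F2) ^ (-l)) := by
        have hl' : -l ≠ 0 := by omega
        obtain ⟨a, b, -⟩ := Q_of_zpow (s := 1) (t := 0) (by decide) hl'
        exact ⟨a, b, by rw [cnt_of_zpow_ne (by decide)]; exact Or.inl rfl⟩
      have g0 : Hd 0 (of 0 : F2) := ⟨true, by simp⟩
      have g1 : Lt 0 (of 0 : F2) := ⟨true, by simp⟩
      have c1 := cnt_mul_of_ne 1 q1.2.1 g0 (by decide)
      have l1 := lt_mul_of_ne q1.2.1 g0 g1 (by decide)
      have c2 := cnt_mul_of_ne 1 l1 q2.1 (by decide)
      rw [c1, cnt_of_zpow, cnt_of_zpow] at c2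
      rw [← hw2] at c2
      omega

end Pool.Agent.U501.WG
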