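import Mathlib

/-! Subgroups `⟨s, u⟩` of a free group of rank two containing the other generator `t`. -/

namespace Pool.Agent.U501.WG

open FreeGroup List

abbrev F2 := FreeGroup (Fin 2)

/-- number of letters `t ^ ±1` in the reduced word -/
def cnt (t : Fin 2) (g : F2) : ℕ := g.toWord.countP (fun p => decide (p.1 = t))

/-- the reduced word of `g` begins with a letter `i ^ ±1` -/
def Hd (i : Fin 2) (g : F2) : Prop := ∃ e, g.toWord.head? = some (i, e)

/-- the reduced word of `g` ends with a letter `i ^ ±1` -/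
def Lt (i : Fin 2) (g : F2) : Prop := ∃ e, g.toWord.getLast? = some (i, e)

theorem toWord_mul_of_ne {g h : F2} {j k : Fin 2} (hg : Lt j g) (hh : Hd k h) (hjk : j ≠ k) :
    (g * h).toWord = g.toWord ++ h.toWord := by
  rw [toWord_mul]
  apply FreeGroup.IsReduced.reduce_eq
  obtain ⟨e, he⟩ := hg
  obtain ⟨e', he'⟩ := hh
  unfold FreeGroup.IsReduced
  rw [List.isChain_append]
  refine ⟨isReduced_toWord, isReduced_toWord, ?_⟩
  intro x hx y hy
  rw [he] at hx
  rw [he'] at hy
  simp only [Option.mem_def, Option.some.injEq] at hx hy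
  subst hx; subst hy
  intro h
  exact absurd h hjk

theorem cnt_mul_of_ne {g h : F2} {j k : Fin 2} (t : Fin 2) (hg : Lt j g) (hh : Hd k h)
    (hjk : j ≠ k) : cnt t (g * h) = cnt t g + cnt t h := by
  unfold cnt
  rw [toWord_mul_of_ne hg hh hjk, List.countP_append]

theorem hd_mul_of_ne {g h : F2} {i j k : Fin 2} (hi : Hd i g) (hg : Lt j g) (hh : Hd k h)
    (hjk : j ≠ k) : Hd i (g * h) := by
  obtain ⟨e, he⟩ := hi
  refine ⟨e, ?_⟩
  rw [toWord_mul_of_ne hg hh hjk, List.head?_append, he]
  rfl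

theorem lt_mul_of_ne {g h : F2} {j k l : Fin 2} (hg : Lt j g) (hh : Hd k h) (hl : Lt l h)
    (hjk : j ≠ k) : Lt l (g * h) := by
  obtain ⟨e, he⟩ := hl
  refine ⟨e, ?_⟩
  rw [toWord_mul_of_ne hg hh hjk, List.getLast?_append, he]
  rfl

theorem invRev_eq (L : List (Fin 2 × Bool)) :
    invRev L = (L.map (fun p => (p.1, !p.2))).reverse := rfl

theorem hd_inv {g : F2} {i : Fin 2} (h : Lt i g) : Hd i g⁻¹ := by
  obtain ⟨e, he⟩ := h
  refine ⟨!e, ?_⟩
  rw [toWord_inv, invRev_eq, List.head?_reverse, List.getLast?_map, he]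
  rfl

theorem lt_inv {g : F2} {i : Fin 2} (h : Hd i g) : Lt i g⁻¹ := by
  obtain ⟨e, he⟩ := h
  refine ⟨!e, ?_⟩
  rw [toWord_inv, invRev_eq, List.getLast?_reverse, List.head?_map, he]
  rfl

theorem countP_invRev (t : Fin 2) (L : List (Fin 2 × Bool)) :
    (invRev L).countP (fun p => decide (p.1 = t)) = L.countP (fun p => decide (p.1 = t)) := by
  rw [invRev_eq, List.countP_reverse, List.countP_map]
  rfl

theorem cnt_inv (t : Fin 2) (g : F2) : cnt t g⁻¹ = cnt t g := by
  unfold cnt
  rw [toWord_inv, countP_invRev]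

/-- the three properties -/
def Q (t i j : Fin 2) (g : F2) : Prop := Hd i g ∧ Lt j g ∧ (cnt t g = 0 ∨ 2 ≤ cnt t g)

theorem Q_inv {t i j : Fin 2} {g : F2} (h : Q t i j g) : Q t j i g⁻¹ :=
  ⟨hd_inv h.2.1, lt_inv h.1, by rw [cnt_inv]; exact h.2.2⟩

theorem Q_mul {t i j k l : Fin 2} {g h : F2} (hg : Q t i j g) (hh : Q t k l h) (hjk : j ≠ k) :
    Q t i l (g * h) := by
  refine ⟨hd_mul_of_ne hg.1 hg.2.1 hh.1 hjk, lt_mul_of_ne hg.2.1 hh.1 hh.2.1 hjk, ?_⟩
  rw [cnt_mul_of_ne t hg.2.1 hh.1 hjk]
  rcases hg.2.2 with h1 | h1 <;> rcases hh.2.2 with h2 | h2 <;> omega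

theorem Q_of_pow {s t : Fin 2} (hst : s ≠ t) (n : ℕ) : Q t s s ((of s : F2) ^ (n + 1)) := by
  have h : ((of s : F2) ^ (n + 1)).toWord = List.replicate (n + 1) (s, true) := toWord_of_pow s _
  refine ⟨⟨true, ?_⟩, ⟨true, ?_⟩, Or.inl ?_⟩
  · rw [h]; rfl
  · rw [h, List.getLast?_replicate]; simp
  · unfold cnt
    rw [h, List.countP_replicate]
    simp [hst]

theorem Q_of_zpow {s t : Fin 2} (hst : s ≠ t) {k : ℤ} (hk : k ≠ 0) : Q t s s ((of s : F2) ^ k) := by
  obtain ⟨n, rfl | rfl⟩ := Int.eq_nat_or_neg k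
  · obtain ⟨m, rfl⟩ := Nat.exists_eq_succ_of_ne_zero (n := n) (by simpa using hk)
    rw [zpow_natCast]
    exact Q_of_pow hst m
  · obtain ⟨m, rfl⟩ := Nat.exists_eq_succ_of_ne_zero (n := n) (by simpa using hk)
    rw [zpow_neg, zpow_natCast]
    exact Q_inv (Q_of_pow hst m)

/-- number of letters of a power of a generator -/
theorem cnt_of_zpow (t : Fin 2) (k : ℤ) : cnt t ((of t : F2) ^ k) = k.natAbs := by
  obtain ⟨n, rfl | rfl⟩ := Int.eq_nat_or_neg k
  · rw [zpow_natCast]
    unfold cnt
    rw [toWord_of_pow, List.countP_replicate]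
    simp
  · rw [zpow_neg, zpow_natCast, cnt_inv]
    unfold cnt
    rw [toWord_of_pow, List.countP_replicate]
    simp

theorem toWord_pow_succ (U : F2) (n : ℕ) :
    (U ^ (n + 1)).toWord = reduceCyclically.conjugator U.toWord ++
      (List.replicate (n + 1) (reduceCyclically U.toWord)).flatten ++
      invRev (reduceCyclically.conjugator U.toWord) := by
  rw [toWord_pow, reduceCyclically.reduce_flatten_replicate_succ isReduced_toWord]

theorem Q_pow {t : Fin 2} {U : F2} (h1 : Hd t U) (h2 : Lt t U) (h3 : 2 ≤ cnt t U) (n : ℕ) :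
    Q t t t (U ^ (n + 1)) := by
  set C := reduceCyclically.conjugator U.toWord with hC
  set R := reduceCyclically U.toWord with hR
  have hU : C ++ R ++ invRev C = U.toWord := reduceCyclically.conj_conjugator_reduceCyclically _
  have hpow : (U ^ (n + 1)).toWord = C ++ (List.replicate (n + 1) R).flatten ++ invRev C :=
    toWord_pow_succ U n
  have hne : C ++ R ≠ [] := by
    intro h0
    have hC0 : C = [] := (List.append_eq_nil_iff.mp h0).1
    have hR0 : R = [] := (List.append_eq_nil_iff.mp h0).2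
    obtain ⟨e, he⟩ := h1
    rw [← hU, hC0, hR0] at he
    simp [invRev] at he
  have hne' : R ++ invRev C ≠ [] := by
    intro h0
    have hC0 : invRev C = [] := (List.append_eq_nil_iff.mp h0).2
    have hR0 : R = [] := (List.append_eq_nil_iff.mp h0).1
    have hC1 : C = [] := by
      rw [invRev_eq] at hC0
      simpa using hC0
    exact hne (by rw [hC1, hR0]; rfl)
  refine ⟨?_, ?_, Or.inr ?_⟩
  · obtain ⟨e, he⟩ := h1
    refine ⟨e, ?_⟩
    rw [hpow, List.replicate_succ, List.flatten_cons]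
    have : C ++ (R ++ (List.replicate n R).flatten) ++ invRev C =
        (C ++ R) ++ ((List.replicate n R).flatten ++ invRev C) := by
      simp [List.append_assoc]
    rw [this, List.head?_append_of_ne_nil _ hne, ← he, ← hU, List.head?_append_of_ne_nil _ hne]
  · obtain ⟨e, he⟩ := h2
    refine ⟨e, ?_⟩
    rw [hpow, List.replicate_succ', List.flatten_append]
    have : C ++ ((List.replicate n R).flatten ++ [R].flatten) ++ invRev C =
        (C ++ (List.replicate n R).flatten) ++ (R ++ invRev C) := by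
      simp [List.append_assoc]
    rw [this, List.getLast?_append_of_ne_nil _ hne', ← he, ← hU, List.append_assoc,
      List.getLast?_append_of_ne_nil _ hne']
  · unfold cnt at h3 ⊢
    rw [hpow]
    rw [← hU] at h3
    rw [List.countP_append, List.countP_append] at h3 ⊢
    rw [List.replicate_succ, List.flatten_cons, List.countP_append]
    omega

theorem Q_zpow {t : Fin 2} {U : F2} (h1 : Hd t U) (h2 : Lt t U) (h3 : 2 ≤ cnt t U) {k : ℤ}
    (hk : k ≠ 0) : Q t t t (U ^ k) := by
  obtain ⟨n, rfl | rfl⟩ := Int.eq_nat_or_neg k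
  · obtain ⟨m, rfl⟩ := Nat.exists_eq_succ_of_ne_zero (n := n) (by simpa using hk)
    rw [zpow_natCast]
    exact Q_pow h1 h2 h3 m
  · obtain ⟨m, rfl⟩ := Nat.exists_eq_succ_of_ne_zero (n := n) (by simpa using hk)
    rw [zpow_neg, zpow_natCast]
    exact Q_inv (Q_pow h1 h2 h3 m)

/-- the map of the free product of two infinite cyclic groups -/
noncomputable def fam (s : Fin 2) (U : F2) : ∀ _ : Bool, Multiplicative ℤ →* F2
  | false => zpowersHom F2 (of s)
  | true => zpowersHom F2 U

theorem neWord_Q {s t : Fin 2} (hst : s ≠ t) {U : F2} (h1 : Hd t U) (h2 : Lt t U)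
    (h3 : 2 ≤ cnt t U) {i j : Bool}
    (w : Monoid.CoprodI.NeWord (fun _ : Bool => Multiplicative ℤ) i j) :
    Q t (if i then t else s) (if j then t else s) (Monoid.CoprodI.lift (fam s U) w.prod) := by
  induction w with
  | @singleton i x hx =>
    have hx' : Multiplicative.toAdd x ≠ 0 := fun h => hx (by
      apply Multiplicative.toAdd.injective
      simpa using h)
    have he : Monoid.CoprodI.lift (fam s U)
        (Monoid.CoprodI.NeWord.singleton (M := fun _ : Bool => Multiplicative ℤ) (i := i) x hx).prod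
        = fam s U i x := by
      simp
    rw [he]
    cases i with
    | false =>
      have : fam s U false x = (of s : F2) ^ (Multiplicative.toAdd x) := rfl
      rw [this]
      exact Q_of_zpow hst hx'
    | true =>
      have : fam s U true x = U ^ (Multiplicative.toAdd x) := rfl
      rw [this]
      exact Q_zpow h1 h2 h3 hx'
  | @append i j k l w₁ hne w₂ ih1 ih2 =>
    rw [Monoid.CoprodI.NeWord.append_prod, _root_.map_mul]
    refine Q_mul ih1 ih2 ?_
    cases j <;> cases k <;> simp_all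
    exact fun h => hst h.symm

theorem closure_Q {s t : Fin 2} (hst : s ≠ t) {U : F2} (h1 : Hd t U) (h2 : Lt t U)
    (h3 : 2 ≤ cnt t U) {g : F2} (hg : g ∈ Subgroup.closure ({of s, U} : Set F2)) :
    cnt t g ≠ 1 := by
  have hle : Subgroup.closure ({of s, U} : Set F2) ≤ (Monoid.CoprodI.lift (fam s U)).range := by
    rw [Subgroup.closure_le]
    intro x hx
    rcases hx with rfl | hx
    · refine ⟨Monoid.CoprodI.of (i := false) (Multiplicative.ofAdd 1), ?_⟩
      simp [fam]
    · rw [Set.mem_singleton_iff] at hx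
      subst hx
      refine ⟨Monoid.CoprodI.of (i := true) (Multiplicative.ofAdd 1), ?_⟩
      simp [fam]
  obtain ⟨h, rfl⟩ := hle hg
  set w := Monoid.CoprodI.Word.equiv h with hw
  have hh : h = w.prod := by
    rw [hw]
    exact (Monoid.CoprodI.Word.equiv.symm_apply_apply h).symm
  by_cases hemp : w = Monoid.CoprodI.Word.empty
  · rw [hh, hemp]
    simp [cnt]
  · obtain ⟨i, j, w', hw'⟩ := Monoid.CoprodI.NeWord.of_word w hemp
    have := neWord_Q hst h1 h2 h3 w'
    rw [hh, ← hw']
    rcases this.2.2 with h0 | h0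
    · intro h1
      have : cnt t ((Monoid.CoprodI.lift (fam s U)) w'.prod) = 1 := h1
      omega
    · intro h1
      have : cnt t ((Monoid.CoprodI.lift (fam s U)) w'.prod) = 1 := h1
      omega

end Pool.Agent.U501.WG
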